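import Pool.Agent.H82.PD.Dense

/-!
# Few primes have a base with a small order
-/

set_option autoImplicit false

namespace Pool.Agent.H82.PD

open Finset Filter Topology Pool.Agent.Y943.Fu

/-- the primes up to `X` modulo which some `b ≤ B` has order at most `T` -/
theorem count_bad (X B T : ℕ) :
    {p : ℕ | p ≤ X ∧ p.Prime ∧ ∃ b : ℕ, 2 ≤ b ∧ b ≤ B ∧ ¬ p ∣ b ∧
      orderOf (b : ZMod p) ≤ T}.ncard ≤ (B * T) ^ 2 := by
  classical
  set F : Finset ℕ := (Icc 2 B).biUnion fun b => (Icc 1 T).biUnion fun t => (b ^ t - 1).primeFactors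
    with hF
  have hsub : {p : ℕ | p ≤ X ∧ p.Prime ∧ ∃ b : ℕ, 2 ≤ b ∧ b ≤ B ∧ ¬ p ∣ b ∧
      orderOf (b : ZMod p) ≤ T} ⊆ (F : Set ℕ) := by
    rintro p ⟨_, hp, b, hb2, hbB, hpb, hord⟩
    have h1 := order_pos hp hpb
    rw [mem_coe, hF, mem_biUnion]
    refine ⟨b, mem_Icc.2 ⟨hb2, hbB⟩, ?_⟩
    rw [mem_biUnion]
    refine ⟨orderOf (b : ZMod p), mem_Icc.2 ⟨h1, hord⟩, ?_⟩
    rw [Nat.mem_primeFactors]
    refine ⟨hp, (dvd_pow_iff (by omega)).2 dvd_rfl, ?_⟩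
    have : 2 ^ 1 ≤ b ^ orderOf (b : ZMod p) := by
      calc 2 ^ 1 ≤ b ^ 1 := Nat.pow_le_pow_left hb2 1
        _ ≤ _ := Nat.pow_le_pow_right (by omega) h1
    omega
  have h2 := Set.ncard_le_ncard hsub F.finite_toSet
  rw [Set.ncard_coe_finset] at h2
  refine h2.trans ?_
  refine card_biUnion_le.trans ?_
  have h3 : ∀ b ∈ Icc 2 B, ((Icc 1 T).biUnion fun t => (b ^ t - 1).primeFactors).card ≤
      T * (B * T) := by
    intro b hb
    rw [mem_Icc] at hb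
    refine card_biUnion_le.trans ?_
    have h4 : ∀ t ∈ Icc 1 T, (b ^ t - 1).primeFactors.card ≤ B * T := by
      intro t ht
      rw [mem_Icc] at ht
      refine (card_primes_le hb.1 ht.1 _ fun p hp => ?_).trans (Nat.mul_le_mul hb.2 ht.2)
      rw [Nat.mem_primeFactors] at hp
      exact ⟨hp.1, hp.2.1⟩
    refine (sum_le_sum h4).trans ?_
    rw [sum_const, Nat.card_Icc, smul_eq_mul]
    simp
  refine (sum_le_sum h3).trans ?_
  rw [sum_const, Nat.card_Icc, smul_eq_mul]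
  have h5 : B + 1 - 2 ≤ B := by omega
  calc (B + 1 - 2) * (T * (B * T)) ≤ B * (T * (B * T)) := Nat.mul_le_mul_right _ h5
    _ = (B * T) ^ 2 := by ring

/-- the first set of primes -/
def PA (p : ℕ) : Prop := p.Prime ∧ ∀ b : ℕ, 2 ≤ b → (b : ℝ) ≤ (p : ℝ) ^ (0.005 : ℝ) →
  (p : ℝ) ^ (0.45 : ℝ) ≤ orderOf (b : ZMod p)

/-- the second set of primes -/
def PB (p : ℕ) : Prop := p.Prime ∧ ∀ b : ℕ, 2 ≤ b → (b : ℝ) ≤ Real.log p →
  Real.sqrt p * Real.exp (-Real.sqrt (Real.log p)) ≤ orderOf (b : ZMod p)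

theorem not_dvd_of_lt {p b : ℕ} (hb : 2 ≤ b) (h : b < p) : ¬ p ∣ b := fun hd => by
  have := Nat.le_of_dvd (by omega) hd
  omega

theorem lt_of_PA {p b : ℕ} (hp : p.Prime) (h : (b : ℝ) ≤ (p : ℝ) ^ (0.005 : ℝ)) : b < p := by
  have hp2 : (1 : ℝ) < p := by exact_mod_cast hp.one_lt
  have : (b : ℝ) < p := by
    refine lt_of_le_of_lt h ?_
    nth_rewrite 2 [← Real.rpow_one (p : ℝ)]
    exact Real.rpow_lt_rpow_of_exponent_lt hp2 (by norm_num)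
  exact_mod_cast this

theorem lt_of_PB {p b : ℕ} (hp : p.Prime) (h : (b : ℝ) ≤ Real.log p) : b < p := by
  have hp0 : (0 : ℝ) < p := by exact_mod_cast hp.pos
  have : (b : ℝ) < p := lt_of_le_of_lt h (by
    have := Real.log_le_sub_one_of_pos hp0
    linarith)
  exact_mod_cast this

/-- all but `X ^ 0.91` of the primes up to `X` are in the first set -/
theorem count_PA (X : ℕ) : (({p : ℕ | p ≤ X ∧ p.Prime ∧ ¬ PA p}.ncard : ℕ) : ℝ) ≤
    (X : ℝ) ^ (0.91 : ℝ) := by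
  rcases Nat.eq_zero_or_pos X with rfl | hX
  · have h0 : {p : ℕ | p ≤ 0 ∧ p.Prime ∧ ¬ PA p} = ∅ := by
      ext p
      simp only [Set.mem_ofPred_eq, Set.mem_empty_iff_false, iff_false, not_and]
      intro h hp
      have := hp.pos
      omega
    rw [h0]
    simp
    positivity
  have hX1 : (1 : ℝ) ≤ X := by exact_mod_cast hX
  have hX0 : (0 : ℝ) < X := by linarith
  set B := ⌊(X : ℝ) ^ (0.005 : ℝ)⌋₊ with hB
  set T := ⌊(X : ℝ) ^ (0.45 : ℝ)⌋₊ with hT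
  have hsub : {p : ℕ | p ≤ X ∧ p.Prime ∧ ¬ PA p} ⊆
      {p : ℕ | p ≤ X ∧ p.Prime ∧ ∃ b : ℕ, 2 ≤ b ∧ b ≤ B ∧ ¬ p ∣ b ∧ orderOf (b : ZMod p) ≤ T} := by
    rintro p ⟨hpX, hp, hbad⟩
    refine ⟨hpX, hp, ?_⟩
    unfold PA at hbad
    push Not at hbad
    obtain ⟨b, hb2, hbp, hord⟩ := hbad hp
    have hpX' : (p : ℝ) ≤ X := by exact_mod_cast hpX
    refine ⟨b, hb2, ?_, not_dvd_of_lt hb2 (lt_of_PA hp hbp), ?_⟩
    · apply Nat.le_floor
      exact hbp.trans (Real.rpow_le_rpow (Nat.cast_nonneg _) hpX' (by norm_num))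
    · apply Nat.le_floor
      exact hord.le.trans (Real.rpow_le_rpow (Nat.cast_nonneg _) hpX' (by norm_num))
  have hfin : {p : ℕ | p ≤ X ∧ p.Prime ∧ ∃ b : ℕ, 2 ≤ b ∧ b ≤ B ∧ ¬ p ∣ b ∧
      orderOf (b : ZMod p) ≤ T}.Finite := (Set.finite_Iic X).subset fun p hp => hp.1
  have h1 := (Set.ncard_le_ncard hsub hfin).trans (count_bad X B T)
  have h2 : (({p : ℕ | p ≤ X ∧ p.Prime ∧ ¬ PA p}.ncard : ℕ) : ℝ) ≤ ((B * T) ^ 2 : ℕ) := by
    exact_mod_cast h1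
  refine h2.trans ?_
  push_cast
  have h3 : (B : ℝ) ≤ (X : ℝ) ^ (0.005 : ℝ) := Nat.floor_le (by positivity)
  have h4 : (T : ℝ) ≤ (X : ℝ) ^ (0.45 : ℝ) := Nat.floor_le (by positivity)
  calc ((B : ℝ) * T) ^ 2 ≤ ((X : ℝ) ^ (0.005 : ℝ) * (X : ℝ) ^ (0.45 : ℝ)) ^ 2 := by gcongr
    _ = (X : ℝ) ^ (0.91 : ℝ) := by
      rw [← Real.rpow_add hX0, ← Real.rpow_natCast, ← Real.rpow_mul hX0.le]
      norm_num

/-- all but `X exp (-√(log X))` of the primes up to `X` are in the second set -/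
theorem count_PB : ∃ X₀ : ℕ, ∀ X : ℕ, X₀ ≤ X →
    (({p : ℕ | p ≤ X ∧ p.Prime ∧ ¬ PB p}.ncard : ℕ) : ℝ) ≤
      X * Real.exp (-Real.sqrt (Real.log X)) := by
  have hu : Tendsto (fun X : ℕ => Real.sqrt (Real.log X)) atTop atTop :=
    Real.tendsto_sqrt_atTop.comp (Real.tendsto_log_atTop.comp tendsto_natCast_atTop_atTop)
  have hlo := (isLittleO_pow_exp_pos_mul_atTop (k := 4) (b := (0.4 : ℝ)) (by norm_num)).bound
    (show (0 : ℝ) < 1 / 2 by norm_num)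
  have hev1 := hu.eventually hlo
  have hev2 := hu.eventually_ge_atTop 4
  obtain ⟨X₀, hX₀⟩ := eventually_atTop.1 ((hev1.and hev2).and (eventually_ge_atTop 1))
  refine ⟨X₀, fun X hX => ?_⟩
  obtain ⟨⟨e1, e2⟩, e3⟩ := hX₀ X hX
  have hX1 : (1 : ℝ) ≤ X := by exact_mod_cast e3
  have hX0 : (0 : ℝ) < X := by linarith
  have hL0 : 0 ≤ Real.log X := Real.log_nonneg hX1
  set u := Real.sqrt (Real.log X) with hudef
  have hu2 : u ^ 2 = Real.log X := Real.sq_sqrt hL0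
  have hXu : (X : ℝ) = Real.exp (u ^ 2) := by rw [hu2, Real.exp_log hX0]
  have hu0 : 0 ≤ u := Real.sqrt_nonneg _
  rw [Real.norm_eq_abs, Real.norm_eq_abs, abs_of_nonneg (by positivity),
    abs_of_pos (Real.exp_pos _)] at e1
  -- the parameters
  set Y := ⌊Real.exp (u ^ 2 / 2)⌋₊ with hY
  set B := ⌊Real.log X⌋₊ with hB
  set T := ⌊Real.exp (u ^ 2 / 2 - 0.7 * u)⌋₊ with hT
  have hsub : {p : ℕ | p ≤ X ∧ p.Prime ∧ ¬ PB p} ⊆ (Finset.Icc 1 Y : Set ℕ) ∪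
      {p : ℕ | p ≤ X ∧ p.Prime ∧ ∃ b : ℕ, 2 ≤ b ∧ b ≤ B ∧ ¬ p ∣ b ∧ orderOf (b : ZMod p) ≤ T} := by
    rintro p ⟨hpX, hp, hbad⟩
    have hpX' : (p : ℝ) ≤ X := by exact_mod_cast hpX
    have hp0 : (0 : ℝ) < p := by exact_mod_cast hp.pos
    by_cases hpY : p ≤ Y
    · left
      rw [coe_Icc, Set.mem_Icc]
      exact ⟨hp.pos, hpY⟩
    right
    refine ⟨hpX, hp, ?_⟩
    unfold PB at hbad
    push Not at hbad
    obtain ⟨b, hb2, hbp, hord⟩ := hbad hp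
    refine ⟨b, hb2, ?_, not_dvd_of_lt hb2 (lt_of_PB hp hbp), ?_⟩
    · apply Nat.le_floor
      exact hbp.trans (Real.log_le_log hp0 hpX')
    · apply Nat.le_floor
      refine hord.le.trans ?_
      have h1 : u ^ 2 / 2 < Real.log p := by
        rw [Real.lt_log_iff_exp_lt hp0]
        exact (Nat.floor_lt (Real.exp_pos _).le).1 (by omega)
      have h2 : Real.sqrt p ≤ Real.exp (u ^ 2 / 2) := by
        rw [Real.sqrt_le_left (Real.exp_pos _).le, ← Real.exp_nat_mul]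
        rw [hXu] at hpX'
        refine hpX'.trans (Real.exp_le_exp.2 ?_)
        push_cast
        linarith
      have h3 : 0.7 * u ≤ Real.sqrt (Real.log p) := by
        apply Real.le_sqrt_of_sq_le
        nlinarith
      rw [Real.exp_sub]
      rw [Real.exp_neg, ← div_eq_mul_inv]
      exact div_le_div₀ (Real.exp_pos _).le h2 (Real.exp_pos _) (Real.exp_le_exp.2 h3)
  have hfin : {p : ℕ | p ≤ X ∧ p.Prime ∧ ∃ b : ℕ, 2 ≤ b ∧ b ≤ B ∧ ¬ p ∣ b ∧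
      orderOf (b : ZMod p) ≤ T}.Finite := (Set.finite_Iic X).subset fun p hp => hp.1
  have h1 := (Set.ncard_le_ncard hsub ((Finset.finite_toSet _).union hfin)).trans
    (Set.ncard_union_le _ _)
  rw [Set.ncard_coe_finset, Nat.card_Icc] at h1
  have h2 := count_bad X B T
  have h3 : (({p : ℕ | p ≤ X ∧ p.Prime ∧ ¬ PB p}.ncard : ℕ) : ℝ) ≤ ((Y + (B * T) ^ 2 : ℕ) : ℝ) := by
    have : {p : ℕ | p ≤ X ∧ p.Prime ∧ ¬ PB p}.ncard ≤ Y + (B * T) ^ 2 := by omega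
    exact_mod_cast this
  refine h3.trans ?_
  push_cast
  have g1 : (Y : ℝ) ≤ Real.exp (u ^ 2 / 2) := Nat.floor_le (Real.exp_pos _).le
  have g2 : (B : ℝ) ≤ u ^ 2 := by
    rw [hu2]
    exact Nat.floor_le hL0
  have g3 : (T : ℝ) ≤ Real.exp (u ^ 2 / 2 - 0.7 * u) := Nat.floor_le (Real.exp_pos _).le
  have g4 : ((B : ℝ) * T) ^ 2 ≤ u ^ 4 * Real.exp (u ^ 2 - 1.4 * u) := by
    calc ((B : ℝ) * T) ^ 2 ≤ (u ^ 2 * Real.exp (u ^ 2 / 2 - 0.7 * u)) ^ 2 := by gcongr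
      _ = u ^ 4 * Real.exp (u ^ 2 - 1.4 * u) := by
        rw [mul_pow, ← Real.exp_nat_mul]
        congr 1
        · ring
        · congr 1
          push_cast
          ring
  have g5 : u ^ 4 * Real.exp (u ^ 2 - 1.4 * u) ≤ 1 / 2 * Real.exp (u ^ 2 - u) := by
    calc u ^ 4 * Real.exp (u ^ 2 - 1.4 * u) ≤ (1 / 2 * Real.exp (0.4 * u)) *
          Real.exp (u ^ 2 - 1.4 * u) := by gcongr
      _ = 1 / 2 * Real.exp (u ^ 2 - u) := by
        rw [mul_assoc, ← Real.exp_add]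
        congr 2
        ring
  have g6 : Real.exp (u ^ 2 / 2) ≤ 1 / 2 * Real.exp (u ^ 2 - u) := by
    have h4 : (2 : ℝ) ≤ Real.exp 1 := by
      have := Real.add_one_le_exp (1 : ℝ)
      linarith
    have h5 : 2 * Real.exp (u ^ 2 / 2) ≤ Real.exp (u ^ 2 - u) := by
      calc 2 * Real.exp (u ^ 2 / 2) ≤ Real.exp 1 * Real.exp (u ^ 2 / 2) := by gcongr
        _ = Real.exp (1 + u ^ 2 / 2) := (Real.exp_add _ _).symm
        _ ≤ Real.exp (u ^ 2 - u) := Real.exp_le_exp.2 (by nlinarith)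
    linarith
  have g7 : (X : ℝ) * Real.exp (-u) = Real.exp (u ^ 2 - u) := by
    rw [hXu, ← Real.exp_add, sub_eq_add_neg]
  rw [g7]
  linarith

/-- the primes of the first set -/
theorem PA_order {b : ℕ} (hb : 2 ≤ b) : ∃ p₀ : ℕ, ∀ p, p₀ ≤ p → PA p → p.Prime ∧ ¬ p ∣ b ∧
    (p : ℝ) ^ (0.45 : ℝ) ≤ orderOf (b : ZMod p) := by
  have h1 : Tendsto (fun p : ℕ => (p : ℝ) ^ (0.005 : ℝ)) atTop atTop :=
    (tendsto_rpow_atTop (by norm_num)).comp tendsto_natCast_atTop_atTop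
  obtain ⟨p₀, hp₀⟩ := eventually_atTop.1 (h1.eventually_ge_atTop (b : ℝ))
  refine ⟨p₀, fun p hp hPA => ?_⟩
  exact ⟨hPA.1, not_dvd_of_lt hb (lt_of_PA hPA.1 (hp₀ p hp)), hPA.2 b hb (hp₀ p hp)⟩

/-- the primes of the second set -/
theorem PB_order {b : ℕ} (hb : 2 ≤ b) {θ : ℝ} (hθ : θ < 1 / 2) : ∃ p₀ : ℕ, ∀ p, p₀ ≤ p → PB p →
    p.Prime ∧ ¬ p ∣ b ∧ (p : ℝ) ^ θ ≤ orderOf (b : ZMod p) := by
  have h1 : Tendsto (fun p : ℕ => Real.log (p : ℝ)) atTop atTop :=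
    Real.tendsto_log_atTop.comp tendsto_natCast_atTop_atTop
  obtain ⟨p₀, hp₀⟩ := eventually_atTop.1 (h1.eventually_ge_atTop (max (b : ℝ) ((1 / 2 - θ)⁻¹ ^ 2)))
  refine ⟨p₀, fun p hp hPB => ?_⟩
  have h2 := hp₀ p hp
  have h3 := (le_max_left _ _).trans h2
  have h4 := (le_max_right _ _).trans h2
  have hp0 : (0 : ℝ) < p := by exact_mod_cast hPB.1.pos
  refine ⟨hPB.1, not_dvd_of_lt hb (lt_of_PB hPB.1 h3), le_trans ?_ (hPB.2 b hb h3)⟩
  have h5 : 0 < 1 / 2 - θ := by linarith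
  have hL0 : 0 ≤ Real.log p := by
    refine le_trans ?_ h4
    positivity
  set v := Real.sqrt (Real.log p) with hv
  have hv2 : v ^ 2 = Real.log p := Real.sq_sqrt hL0
  have h6 : (1 / 2 - θ)⁻¹ ≤ v := Real.le_sqrt_of_sq_le h4
  have h7 : 1 ≤ (1 / 2 - θ) * v := by
    rw [inv_le_iff_one_le_mul₀ h5] at h6
    linarith
  have hv0 : 0 ≤ v := Real.sqrt_nonneg _
  have hpv : (p : ℝ) = Real.exp (v ^ 2) := by rw [hv2, Real.exp_log hp0]
  have h8 : Real.sqrt p = Real.exp (v ^ 2 / 2) := by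
    rw [Real.sqrt_eq_iff_mul_self_eq hp0.le (Real.exp_pos _).le, ← Real.exp_add, hpv]
    congr 1
    ring
  rw [h8, ← Real.exp_add]
  rw [Real.rpow_def_of_pos hp0, ← hv2]
  apply Real.exp_le_exp.2
  nlinarith

end Pool.Agent.H82.PD
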