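import Pool.Agent.Y943.Fu.Dense2

/-!
# Short sums over consecutive powers modulo a prime
-/

set_option autoImplicit false

namespace Pool.Agent.H82.PD

open Finset Filter Topology Pool.Agent.Y943.Fu Pool.Agent.H332R2.Lit

section

variable {p : ℕ} [Fact p.Prime]

/-- the mean square over all multipliers -/
theorem mean_sq (g : ZMod p) {J : ℕ} (hJ : J ≤ orderOf g) :
    ∑ a : ZMod p, ‖∑ j ∈ range J, ZMod.stdAddChar (N := p) (a * g ^ j)‖ ^ 2 = p * J := by
  classical
  set S : Finset (ZMod p) := (range J).image (fun l => g ^ l) with hS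
  have hinj : Set.InjOn (fun l => g ^ l) (range J : Set ℕ) := by
    refine (inj_pow g).mono ?_
    intro i hi
    rw [coe_range, Set.mem_Iio] at hi ⊢
    omega
  have hcard : S.card = J := by
    rw [hS, card_image_of_injOn hinj, card_range]
  have h1 : ∀ a : ZMod p, ∑ j ∈ range J, ZMod.stdAddChar (N := p) (a * g ^ j) =
      ∑ z, (if z ∈ S then (1 : ℂ) else 0) * ZMod.stdAddChar (a * z) := by
    intro a
    simp only [ite_mul, one_mul, zero_mul]
    rw [Finset.sum_ite_mem univ S, univ_inter, hS, sum_image hinj]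
  simp_rw [h1]
  rw [parseval]
  congr 1
  have h2 : ∀ z : ZMod p, ‖(if z ∈ S then (1 : ℂ) else 0)‖ ^ 2 =
      if z ∈ S then (1 : ℝ) else 0 := by
    intro z
    split_ifs <;> simp
  simp_rw [h2]
  simp [hcard]

/-- a sum over `N` consecutive powers and the shifts by `j < J` -/
theorem shift_bound {g : ZMod p} {N J : ℕ} (hN : N ≤ orderOf g) (hJN : J ≤ N)
    {a : ZMod p} (ha : a ≠ 0) :
    J * ‖∑ i ∈ range N, ZMod.stdAddChar (N := p) (a * g ^ i)‖ ≤
      Real.sqrt (N * (p * J)) + (J : ℝ) ^ 2 := by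
  classical
  set f : ℕ → ℂ := fun i => ZMod.stdAddChar (N := p) (a * g ^ i) with hf
  have hf1 : ∀ i, ‖f i‖ = 1 := fun i => AddChar.norm_apply _ _
  have hshift : ∀ j, ‖∑ i ∈ range N, f i - ∑ i ∈ range N, f (j + i)‖ ≤ 2 * j := by
    intro j
    have e1 := Finset.sum_range_add f j N
    have e2 := Finset.sum_range_add f N j
    have e3 : ∑ i ∈ range N, f i - ∑ i ∈ range N, f (j + i) =
        ∑ i ∈ range j, f i - ∑ i ∈ range j, f (N + i) := by
      rw [add_comm j N] at e1
      rw [e1] at e2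
      linear_combination -e2
    rw [e3]
    refine (norm_sub_le _ _).trans ?_
    have h1 : ‖∑ i ∈ range j, f i‖ ≤ j := by
      refine (norm_sum_le _ _).trans ?_
      simp [hf1]
    have h2 : ‖∑ i ∈ range j, f (N + i)‖ ≤ j := by
      refine (norm_sum_le _ _).trans ?_
      simp [hf1]
    linarith
  have hsum : ‖∑ j ∈ range J, (∑ i ∈ range N, f i - ∑ i ∈ range N, f (j + i))‖ ≤ (J : ℝ) ^ 2 := by
    refine (norm_sum_le _ _).trans ?_
    refine (sum_le_sum fun j _ => hshift j).trans ?_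
    rw [← mul_sum]
    have h3 : 2 * ∑ j ∈ range J, (j : ℝ) = J * (J - 1) := by
      have := Finset.sum_range_id_mul_two J
      rcases Nat.eq_zero_or_pos J with rfl | hJ
      · simp
      · have h4 : (((∑ i ∈ range J, i) * 2 : ℕ) : ℝ) = ((J * (J - 1) : ℕ) : ℝ) := by rw [this]
        push_cast [Nat.cast_sub hJ] at h4
        linarith
    rw [h3]
    have : (0 : ℝ) ≤ J := Nat.cast_nonneg J
    nlinarith
  have hbil : ‖∑ j ∈ range J, ∑ i ∈ range N, f (j + i)‖ ≤ Real.sqrt (N * (p * J)) := by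
    rw [sum_comm]
    refine (norm_sum_le _ _).trans ?_
    apply Real.le_sqrt_of_sq_le
    refine sq_sum_le_card_mul_sum_sq.trans ?_
    rw [card_range]
    refine mul_le_mul_of_nonneg_left ?_ (Nat.cast_nonneg _)
    rw [← mean_sq g (hJN.trans hN)]
    have h5 : ∀ i ∈ range N, ‖∑ j ∈ range J, f (j + i)‖ ^ 2 =
        ‖∑ j ∈ range J, ZMod.stdAddChar (N := p) (a * g ^ i * g ^ j)‖ ^ 2 := by
      intro i _
      congr 2
      refine sum_congr rfl fun j _ => ?_
      rw [hf]
      simp only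
      rw [pow_add]
      congr 1
      ring
    rw [sum_congr rfl h5]
    have hinj : Set.InjOn (fun i => a * g ^ i) (range N : Set ℕ) := by
      intro i hi j hj h
      rw [coe_range, Set.mem_Iio] at hi hj
      refine inj_pow g ?_ ?_ (mul_left_cancel₀ ha h)
      · rw [coe_range, Set.mem_Iio]; omega
      · rw [coe_range, Set.mem_Iio]; omega
    rw [← sum_image (f := fun x => ‖∑ j ∈ range J, ZMod.stdAddChar (N := p) (x * g ^ j)‖ ^ 2)
      (g := fun i => a * g ^ i) hinj]
    exact sum_le_sum_of_subset_of_nonneg (subset_univ _) fun _ _ _ => by positivity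
  have htot : (J : ℂ) * ∑ i ∈ range N, f i =
      ∑ j ∈ range J, ∑ i ∈ range N, f (j + i) +
        ∑ j ∈ range J, (∑ i ∈ range N, f i - ∑ i ∈ range N, f (j + i)) := by
    rw [← sum_add_distrib]
    simp
  have h6 : ‖(J : ℂ) * ∑ i ∈ range N, f i‖ = J * ‖∑ i ∈ range N, f i‖ := by
    rw [norm_mul, Complex.norm_natCast]
  rw [← h6, htot]
  exact (norm_add_le _ _).trans (add_le_add hbil hsum)

end

/-- **sums over `C √p` consecutive powers are small** -/
theorem interval_small {η : ℝ} (hη : 0 < η) : ∃ C : ℝ, 1 ≤ C ∧ ∀ (p : ℕ) [Fact p.Prime] (g : ZMod p),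
    ∀ N : ℕ, C * Real.sqrt p ≤ N → N ≤ orderOf g → ∀ a : ZMod p, a ≠ 0 →
    ‖∑ i ∈ range N, ZMod.stdAddChar (N := p) (a * g ^ i)‖ ≤ η * N := by
  set κ : ℝ := min (η / 4) (1 / 2) with hκ
  have hκ0 : 0 < κ := lt_min (by linarith) (by norm_num)
  have hκ1 : κ ≤ η / 4 := min_le_left _ _
  have hκ2 : κ ≤ 1 / 2 := min_le_right _ _
  set C : ℝ := 2 / (η * Real.sqrt κ) + 4 / η + 2 with hC
  have hsk : 0 < Real.sqrt κ := Real.sqrt_pos.2 hκ0
  have hC2 : 2 ≤ C := by
    have h1 : 0 < 2 / (η * Real.sqrt κ) := by positivity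
    have h2 : 0 < 4 / η := by positivity
    rw [hC]; linarith
  refine ⟨C, by linarith, fun p hp g N hCN hN a ha => ?_⟩
  have hp1 : (1 : ℝ) ≤ p := by exact_mod_cast hp.out.pos
  have hsp : 1 ≤ Real.sqrt p := Real.one_le_sqrt.2 hp1
  have hNC : C ≤ N := by nlinarith
  have hN2 : (2 : ℝ) ≤ N := hC2.trans hNC
  have hN0 : (0 : ℝ) < N := by linarith
  set J : ℕ := ⌊κ * N⌋₊ + 1 with hJ
  have hJ1 : κ * N ≤ J := by
    rw [hJ]; push_cast
    exact (Nat.lt_floor_add_one _).le
  have hJ2 : (J : ℝ) ≤ κ * N + 1 := by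
    rw [hJ]; push_cast
    have := Nat.floor_le (by positivity : 0 ≤ κ * N)
    linarith
  have hJN : J ≤ N := by
    have : (J : ℝ) ≤ N := by nlinarith
    exact_mod_cast this
  have hJ0 : (0 : ℝ) < J := by
    rw [hJ]; positivity
  have h1 := shift_bound hN hJN ha
  set S := ‖∑ i ∈ range N, ZMod.stdAddChar (N := p) (a * g ^ i)‖ with hS
  -- the square root
  have h2 : Real.sqrt (N * (p * J)) ≤ J * (Real.sqrt p / Real.sqrt κ) := by
    rw [show (N : ℝ) * (p * J) = p * (N * J) by ring, Real.sqrt_le_left (by positivity)]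
    rw [mul_pow, div_pow, Real.sq_sqrt (by positivity), Real.sq_sqrt hκ0.le]
    rw [show (J : ℝ) ^ 2 * (p / κ) = p * (J * (J / κ)) by ring]
    have h3 : (N : ℝ) ≤ J / κ := by
      rw [le_div_iff₀ hκ0]; linarith
    have : (N : ℝ) * J ≤ J * (J / κ) := by nlinarith
    exact mul_le_mul_of_nonneg_left this (by positivity)
  have h4 : J * S ≤ J * (Real.sqrt p / Real.sqrt κ + J) := by nlinarith
  have h5 : S ≤ Real.sqrt p / Real.sqrt κ + J := le_of_mul_le_mul_left h4 hJ0
  have h6 : Real.sqrt p / Real.sqrt κ ≤ η / 2 * N := by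
    have h7 : 2 / (η * Real.sqrt κ) * Real.sqrt p ≤ N := by
      refine le_trans ?_ hCN
      refine mul_le_mul_of_nonneg_right ?_ (by linarith)
      have h2 : 0 < 4 / η := by positivity
      rw [hC]; linarith
    have h8 : Real.sqrt p / Real.sqrt κ = η / 2 * (2 / (η * Real.sqrt κ) * Real.sqrt p) := by
      field_simp
    rw [h8]
    exact mul_le_mul_of_nonneg_left h7 (by positivity)
  have h9 : (1 : ℝ) ≤ η / 4 * N := by
    have h10 : 4 / η ≤ N := by
      refine le_trans ?_ hNC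
      have h2 : 0 < 2 / (η * Real.sqrt κ) := by positivity
      rw [hC]; linarith
    rw [div_le_iff₀ hη] at h10
    linarith
  nlinarith

end Pool.Agent.H82.PD
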