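import Pool.Agent.H82.PD.Sum
import Pool.Agent.Y943.Fu.Low

/-!
# Short orbits of fractions with prime denominators
-/

set_option autoImplicit false

namespace Pool.Agent.H82.PD

open Finset Filter Topology Pool.Agent.Y943.Fu Pool.Agent.H332R2.Lit
open scoped ENNReal NNReal

/-- the first `C √p` points of the orbit are nearly dense -/
theorem dense_prime {ε : ℝ} (hε : 0 < ε) : ∃ (C : ℝ) (p₀ : ℕ), 1 ≤ C ∧ ∀ p : ℕ, p.Prime → p₀ ≤ p →
    ∀ b : ℕ, ¬ p ∣ b → (p : ℝ) ^ (0.45 : ℝ) ≤ orderOf (b : ZMod p) → ∀ c : ℤ, ¬ (p : ℤ) ∣ c →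
    ∀ y : ℝ, ∃ i : ℕ, (i : ℝ) ≤ C * Real.sqrt p ∧ ∃ z : ℤ,
      |(b : ℝ) ^ i * (c / p) - y - z| < ε := by
  obtain ⟨K, η, hη, _, hdense⟩ := dense_of_sums ε hε
  obtain ⟨P₀, hP₀⟩ := sum_small η hη
  obtain ⟨C, hC1, hC⟩ := interval_small hη
  refine ⟨2 * C, max P₀ (K + 1), by linarith, fun p hp hpp b hpb hord c hpc y => ?_⟩
  have := Fact.mk hp
  have hpP : P₀ ≤ p := (le_max_left _ _).trans hpp
  have hpK : K + 1 ≤ p := (le_max_right _ _).trans hpp
  have hp0 : (0 : ℝ) < p := by exact_mod_cast hp.pos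
  have hp1 : (1 : ℝ) ≤ p := by exact_mod_cast hp.pos
  have hsp : 1 ≤ Real.sqrt p := Real.one_le_sqrt.2 hp1
  set g : ZMod p := (b : ZMod p) with hg
  have hb0 : g ≠ 0 := by rwa [hg, ne_eq, ZMod.natCast_eq_zero_iff]
  have hc0 : ((c : ℤ) : ZMod p) ≠ 0 := by rwa [ne_eq, ZMod.intCast_zmod_eq_zero_iff_dvd]
  have ht1 : 1 ≤ orderOf g := by
    by_contra hcon
    have h0 : orderOf g = 0 := by omega
    rw [h0] at hord
    have : 0 < (p : ℝ) ^ (0.45 : ℝ) := by positivity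
    norm_num at hord
    linarith
  -- the number of points
  have hceil := Nat.le_ceil (C * Real.sqrt p)
  have hceil2 := (Nat.ceil_lt_add_one (by positivity : 0 ≤ C * Real.sqrt p)).le
  set M := ⌈C * Real.sqrt p⌉₊ with hM
  set N := min (orderOf g) M with hN
  have hM1 : 1 ≤ M := by
    have : (0 : ℝ) < M := lt_of_lt_of_le (by positivity) hceil
    exact_mod_cast this
  have hN1 : 1 ≤ N := le_min ht1 hM1
  have hsum : ∀ a : ZMod p, a ≠ 0 →
      ‖∑ i ∈ range N, ZMod.stdAddChar (N := p) (a * g ^ i)‖ ≤ η * N := by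
    intro a ha
    rcases le_total (orderOf g) M with h | h
    · have hNt : N = orderOf g := min_eq_left h
      rw [hNt]
      exact hP₀ p hpP g hb0 ht1 hord a ha
    · have hNt : N = M := min_eq_right h
      rw [hNt]
      exact hC p g M hceil h a ha
  obtain ⟨l, hl, z, hz⟩ := hdense N (fun l => (b : ℝ) ^ l * (c / p)) hN1 (fun h h1 h2 => by
      have hh : (h : ZMod p) ≠ 0 := by
        rw [ne_eq, ZMod.natCast_eq_zero_iff]
        intro hd
        have := Nat.le_of_dvd h1 hd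
        omega
      have e1 : ∀ l ∈ range N, e ((h : ℝ) * ((b : ℝ) ^ l * (c / p))) =
          ZMod.stdAddChar (N := p) ((h : ZMod p) * c * g ^ l) := by
        intro l _
        have e2 : (h : ℝ) * ((b : ℝ) ^ l * (c / p)) = ((h * b ^ l * c : ℤ) : ℝ) / p := by
          push_cast
          ring
        rw [e2, e_frac]
        congr 1
        push_cast
        ring
      rw [sum_congr rfl e1]
      exact hsum _ (mul_ne_zero hh hc0)) y
  refine ⟨l, ?_, z, hz⟩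
  have h1 : (l : ℝ) ≤ M := by
    have : l ≤ M := by
      have := min_le_right (orderOf g) M
      omega
    exact_mod_cast this
  nlinarith

/-- **dense orbits** -/
theorem orb_dense {P : ℕ → Prop} {b : ℕ} (hb : 2 ≤ b)
    (hP : ∃ p₀ : ℕ, ∀ p, p₀ ≤ p → P p → p.Prime ∧ ¬ p ∣ b ∧
      (p : ℝ) ^ (0.45 : ℝ) ≤ orderOf (b : ZMod p)) {x : ℝ}
    (hx : ∀ K : ℕ, ∃ p : ℕ, K ≤ p ∧ P p ∧ ∃ c : ℤ, ¬ (p : ℤ) ∣ c ∧
      |x - c / p| ≤ Real.exp (-(K * Real.sqrt p))) : orb b x = Set.Icc 0 1 := by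
  obtain ⟨p₁, hp₁⟩ := hP
  refine orb_of_fractions fun ε hε => ?_
  obtain ⟨C, p₀, hC, hdense⟩ := dense_prime hε
  obtain ⟨m, hm⟩ := exists_nat_gt (C * Real.log b + |Real.log ε| + 1)
  obtain ⟨p, hp, hPp, c, hc, hclose⟩ := hx (max (max p₀ p₁) m)
  have g1 : p₀ ≤ p := ((le_max_left _ _).trans (le_max_left _ _)).trans hp
  have g2 : p₁ ≤ p := ((le_max_right _ _).trans (le_max_left _ _)).trans hp
  obtain ⟨hpr, hpb, hord⟩ := hp₁ p g2 hPp
  have hb1 : (1 : ℝ) < b := by exact_mod_cast (by omega : 1 < b)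
  have hb0 : (0 : ℝ) < b := by linarith
  have hlb : 0 < Real.log b := Real.log_pos hb1
  have hp1 : (1 : ℝ) ≤ p := by exact_mod_cast hpr.pos
  have hsp : 1 ≤ Real.sqrt p := Real.one_le_sqrt.2 hp1
  refine ⟨c, p, ⌊C * Real.sqrt p⌋₊, fun n hn => ?_, fun y => ?_⟩
  · have hn' : (n : ℝ) ≤ C * Real.sqrt p := (Nat.le_floor_iff (by positivity)).1 hn
    rw [abs_mul, abs_of_pos (by positivity : (0 : ℝ) < (b : ℝ) ^ n)]
    have e1 : (b : ℝ) ^ n = Real.exp (n * Real.log b) := by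
      rw [Real.exp_nat_mul, Real.exp_log hb0]
    have e2 : (m : ℝ) ≤ ((max (max p₀ p₁) m : ℕ) : ℝ) := by
      exact_mod_cast le_max_right _ _
    have e3 : (n : ℝ) * Real.log b ≤ C * Real.sqrt p * Real.log b := by gcongr
    calc (b : ℝ) ^ n * |x - c / p| ≤ Real.exp (n * Real.log b) *
          Real.exp (-(((max (max p₀ p₁) m : ℕ) : ℝ) * Real.sqrt p)) := by
          rw [e1]; gcongr
      _ = Real.exp (n * Real.log b - ((max (max p₀ p₁) m : ℕ) : ℝ) * Real.sqrt p) := by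
          rw [← Real.exp_add, sub_eq_add_neg]
      _ < Real.exp (Real.log ε) := by
          apply Real.exp_lt_exp.2
          have e4 : (m : ℝ) * Real.sqrt p ≤ ((max (max p₀ p₁) m : ℕ) : ℝ) * Real.sqrt p := by gcongr
          have e5 : (C * Real.log b + |Real.log ε| + 1) * Real.sqrt p ≤ m * Real.sqrt p := by gcongr
          have e6 : |Real.log ε| ≤ |Real.log ε| * Real.sqrt p := by
            have := abs_nonneg (Real.log ε)
            nlinarith
          have e7 := neg_abs_le (Real.log ε)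
          nlinarith
      _ = ε := Real.exp_log hε
  · obtain ⟨i, hi, z, hz⟩ := hdense p hpr g1 b hpb hord c hc y
    exact ⟨i, Nat.le_floor hi, z, hz⟩

/-- **the dimension** -/
theorem orb_dim {P : ℕ → Prop} {b : ℕ} (hb : 2 ≤ b)
    (hP : ∀ θ : ℝ, θ < 1 / 2 → ∃ p₀ : ℕ, ∀ p, p₀ ≤ p → P p → p.Prime ∧ ¬ p ∣ b ∧
      (p : ℝ) ^ θ ≤ orderOf (b : ZMod p)) {δ : ℝ} (hδ0 : 0 < δ) (hδ : δ ≤ 1 / 2) {x : ℝ}
    (hx : ∀ K : ℕ, ∃ p : ℕ, K ≤ p ∧ P p ∧ ∃ c : ℤ, ¬ (p : ℤ) ∣ c ∧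
      |x - c / p| ≤ Real.exp (-(p : ℝ) ^ δ)) : ENNReal.ofReal δ ≤ dimH (orb b x) := by
  refine ENNReal.le_of_forall_nnreal_lt fun s hs => ?_
  rw [ENNReal.ofReal, ENNReal.coe_lt_coe, ← NNReal.coe_lt_coe, Real.coe_toNNReal _ hδ0.le] at hs
  rcases eq_or_lt_of_le (zero_le : (0 : ℝ≥0) ≤ s) with h0 | hs0
  · rw [← h0]
    simp
  have hs0' : (0 : ℝ) < s := hs0
  refine le_dimH_of_fractions hb fun Q => ?_
  set θ : ℝ := ((s : ℝ) + 1 / 2) / 2 with hθ
  have hθ1 : (s : ℝ) < θ := by rw [hθ]; linarith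
  have hθ2 : θ < 1 / 2 := by rw [hθ]; linarith
  obtain ⟨Q₀, hQ₀⟩ := hP θ hθ2
  have hb1 : (1 : ℝ) < b := by exact_mod_cast (by omega : 1 < b)
  have hb0 : (0 : ℝ) < b := by linarith
  have hlb : 0 < Real.log b := Real.log_pos hb1
  obtain ⟨Q₁, hQ₁⟩ := eventually_atTop.1 (growth hs0' hs (Real.log b))
  obtain ⟨Q₂, hQ₂⟩ := eventually_atTop.1 (growth hs0' hθ1 1)
  obtain ⟨q, hq, hWq, c, hc, hclose⟩ := hx (max (max Q Q₀) (max (max Q₁ Q₂) 1))
  have g1 : Q ≤ q := ((le_max_left _ _).trans (le_max_left _ _)).trans hq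
  have g2 : Q₀ ≤ q := ((le_max_right _ _).trans (le_max_left _ _)).trans hq
  have g3 : Q₁ ≤ q := (((le_max_left _ _).trans (le_max_left _ _)).trans (le_max_right _ _)).trans hq
  have g4 : Q₂ ≤ q := (((le_max_right _ _).trans (le_max_left _ _)).trans (le_max_right _ _)).trans hq
  have g5 : 1 ≤ q := ((le_max_right _ _).trans (le_max_right _ _)).trans hq
  obtain ⟨hpr, hpb, hord⟩ := hQ₀ q g2 hWq
  have hq1 : (1 : ℝ) ≤ q := by exact_mod_cast g5
  have hq0 : (0 : ℝ) < q := by linarith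
  have hN1 := Nat.le_ceil ((q : ℝ) ^ (s : ℝ))
  have hN2 := (Nat.ceil_lt_add_one (by positivity : 0 ≤ (q : ℝ) ^ (s : ℝ))).le
  set N := ⌈(q : ℝ) ^ (s : ℝ)⌉₊ with hN
  have hqint : Prime (q : ℤ) := Nat.prime_iff_prime_int.1 hpr
  refine ⟨q, N, g1, c, hN1, ?_, ?_⟩
  · intro i j hij hj hdvd
    have h1 : (q : ℤ) ∣ ((b : ℤ) ^ (j - i) - 1) := by
      have h2 : c * (b : ℤ) ^ j - c * (b : ℤ) ^ i = c * ((b : ℤ) ^ i * ((b : ℤ) ^ (j - i) - 1)) := by
        have : (b : ℤ) ^ j = (b : ℤ) ^ i * (b : ℤ) ^ (j - i) := by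
          rw [← pow_add]
          congr 1
          omega
        rw [this]
        ring
      rw [h2] at hdvd
      rcases hqint.dvd_or_dvd hdvd with h | h
      · exact absurd h hc
      rcases hqint.dvd_or_dvd h with h | h
      · exact absurd (Int.natCast_dvd_natCast.1 (hqint.dvd_of_dvd_pow h)) hpb
      · exact h
    have h3 : q ∣ b ^ (j - i) - 1 := by
      have h4 : ((b ^ (j - i) - 1 : ℕ) : ℤ) = ((b : ℤ) ^ (j - i) - 1) := by
        rw [Nat.cast_sub (Nat.one_le_pow _ _ (by omega))]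
        push_cast
        rfl
      rw [← h4] at h1
      exact_mod_cast h1
    rw [dvd_pow_iff (by omega)] at h3
    have h5 : orderOf (b : ZMod q) ≤ j - i := Nat.le_of_dvd (by omega) h3
    have h5' : ((orderOf (b : ZMod q) : ℕ) : ℝ) ≤ ((j - i : ℕ) : ℝ) := by exact_mod_cast h5
    have h6 := hQ₂ q g4
    rw [one_mul] at h6
    have h7 : 0 < Real.log (4 * q) := Real.log_pos (by linarith)
    have h8 : ((j - i : ℕ) : ℝ) ≤ N := by
      exact_mod_cast (by omega : j - i ≤ N)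
    linarith
  · have h9 := hQ₁ q g3
    have h10 : (b : ℝ) ^ N = Real.exp (Real.log b * N) := by
      rw [mul_comm, Real.exp_nat_mul, Real.exp_log hb0]
    calc (b : ℝ) ^ N * |x - c / q| ≤ Real.exp (Real.log b * N) * Real.exp (-(q : ℝ) ^ δ) := by
          rw [h10]
          gcongr
      _ = Real.exp (Real.log b * N - (q : ℝ) ^ δ) := by rw [← Real.exp_add, sub_eq_add_neg]
      _ ≤ Real.exp (-Real.log (4 * q)) := by
          apply Real.exp_le_exp.2
          have : Real.log b * N ≤ Real.log b * ((q : ℝ) ^ (s : ℝ) + 1) := by gcongr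
          linarith
      _ = 1 / (4 * q) := by
          rw [Real.exp_neg, Real.exp_log (by positivity), one_div]

end Pool.Agent.H82.PD
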